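import Pool.Agent.Helper97.TW.Defs
import Pool.Agent.Helper91.Section.Decomp

/-!
# Project TW, block TRV: the valuation rings above a prime are conjugate
-/

set_option autoImplicit false

namespace Pool.Agent.TW

open Pool.Agent.HG (Pr)
open Pool.Agent.L (OverV)
open Pool.Agent.Helper91.Sect

section Any

variable {k E : Type} [Field k] [Field E] [Algebra k E] [Algebra.IsAlgebraic k E]
  {A : ValuationSubring k}

theorem int_mem53 (O : ValuationSubring E) (hO : ∀ x ∈ A, algebraMap k E x ∈ O) {z : E}
    (hz : IsIntegral A z) : z ∈ O := by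
  obtain ⟨p, hp, hpz⟩ := hz
  have h1 : IsIntegral O z := by
    let φ : A →+* O :=
      { toFun := fun x => ⟨algebraMap k E x, hO _ x.2⟩
        map_one' := by ext; simp
        map_mul' := fun a b => by ext; simp
        map_zero' := by ext; simp
        map_add' := fun a b => by ext; simp }
    refine ⟨p.map φ, hp.map φ, ?_⟩
    rw [Polynomial.eval₂_map]
    exact hpz
  obtain ⟨y, hy⟩ := IsIntegrallyClosed.isIntegral_iff.1 h1
  rw [← hy]
  exact y.2

/-- the prime of the integral closure below a valuation ring -/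
def prm53 (O : ValuationSubring E) (hO : ∀ x ∈ A, algebraMap k E x ∈ O) :
    Ideal (integralClosure A E) where
  carrier := {b | O.valuation (b : E) < 1}
  add_mem' := by
    intro a b ha hb
    exact lt_of_le_of_lt (O.valuation.map_add _ _) (max_lt ha hb)
  zero_mem' := by
    change O.valuation ((0 : integralClosure A E) : E) < 1
    simp
  smul_mem' := by
    intro c b hb
    change O.valuation ((c * b : integralClosure A E) : E) < 1
    have h1 : O.valuation (c : E) ≤ 1 := (O.valuation_le_one_iff _).2 (int_mem53 O hO c.2)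
    push_cast
    rw [map_mul]
    exact mul_lt_one_of_nonneg_of_lt_one_right h1 zero_le' hb

theorem mem_prm53 (O : ValuationSubring E) (hO : ∀ x ∈ A, algebraMap k E x ∈ O)
    (b : integralClosure A E) : b ∈ prm53 O hO ↔ O.valuation (b : E) < 1 := Iff.rfl

theorem prime_prm53 (O : ValuationSubring E) (hO : ∀ x ∈ A, algebraMap k E x ∈ O) :
    (prm53 O hO).IsPrime := by
  refine ⟨?_, ?_⟩
  · intro h
    rw [Ideal.eq_top_iff_one, mem_prm53] at h
    simp at h
  · intro a b hab
    rw [mem_prm53] at hab ⊢
    rw [mem_prm53]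
    have ha : O.valuation (a : E) ≤ 1 := (O.valuation_le_one_iff _).2 (int_mem53 O hO a.2)
    have hb : O.valuation (b : E) ≤ 1 := (O.valuation_le_one_iff _).2 (int_mem53 O hO b.2)
    by_contra hcon
    push Not at hcon
    have h1 : O.valuation (a : E) = 1 := le_antisymm ha hcon.1
    have h2 : O.valuation (b : E) = 1 := le_antisymm hb hcon.2
    push_cast at hab
    rw [map_mul, h1, h2, mul_one] at hab
    exact lt_irrefl _ hab

/-- a valuation ring is the localization of the integral closure at its prime -/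
theorem mem_iff_locW53 (O : ValuationSubring E) (hO : ∀ x ∈ A, algebraMap k E x ∈ O) (z : E) :
    z ∈ O ↔ InLoc (prm53 O hO) z := by
  have hP := prime_prm53 O hO
  constructor
  · intro hz
    rcases inLoc_or_inv (prm53 O hO) z with h | h
    · exact h
    obtain ⟨s, hs, hint⟩ := h
    by_cases h0 : z = 0
    · exact ⟨s, hs, by rw [h0, mul_zero]; exact isIntegral_zero⟩
    by_cases hb : (⟨_, hint⟩ : integralClosure A E) ∈ prm53 O hO
    · exfalso
      apply hs
      rw [mem_prm53] at hb ⊢
      have h1 : (s : E) = (s * z⁻¹) * z := by field_simp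
      rw [h1, map_mul]
      exact mul_lt_one_of_nonneg_of_lt_one_left zero_le' hb ((O.valuation_le_one_iff _).2 hz)
    · refine ⟨_, hb, ?_⟩
      have h1 : ((⟨_, hint⟩ : integralClosure A E) : E) * z = s := by
        change (s : E) * z⁻¹ * z = s
        field_simp
      rw [h1]
      exact s.2
  · rintro ⟨s, hs, hint⟩
    rw [mem_prm53] at hs
    have h1 : O.valuation (s : E) = 1 :=
      le_antisymm ((O.valuation_le_one_iff _).2 (int_mem53 O hO s.2)) (not_lt.1 hs)
    have h2 : O.valuation ((s : E) * z) ≤ 1 :=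
      (O.valuation_le_one_iff _).2 (int_mem53 O hO hint)
    rw [map_mul, h1, one_mul] at h2
    exact (O.valuation_le_one_iff _).1 h2

/-- two valuation rings with the same trace on `k` are conjugate -/
theorem conj53 [IsGalois k E] (O O' : ValuationSubring E)
    (hO : ∀ x : k, x ∈ A ↔ algebraMap k E x ∈ O) (hO' : ∀ x : k, x ∈ A ↔ algebraMap k E x ∈ O') :
    ∃ g : E ≃ₐ[k] E, ∀ z : E, g z ∈ O' ↔ z ∈ O := by
  have h1 : ∀ x ∈ A, algebraMap k E x ∈ O := fun x hx => (hO x).1 hx
  have h2 : ∀ x ∈ A, algebraMap k E x ∈ O' := fun x hx => (hO' x).1 hx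
  have hP := prime_prm53 O h1
  have hQ := prime_prm53 O' h2
  have key : ∀ (V : ValuationSubring E), (∀ x : k, x ∈ A ↔ algebraMap k E x ∈ V) → ∀ x : k,
      (V.valuation (algebraMap k E x) < 1 ↔ x = 0 ∨ x⁻¹ ∉ A) := by
    intro V hV x
    by_cases h0 : x = 0
    · simp [h0]
    have h3 : V.valuation (algebraMap k E x) ≠ 0 := by simpa using h0
    rw [or_iff_right h0, hV, ← V.valuation_le_one_iff, map_inv₀, map_inv₀, not_le,
      one_lt_inv₀ (zero_lt_iff.2 h3)]
  obtain ⟨σ, -, hσ⟩ := exists_conj (k := k) (C := E) (O := A) (⊤ : Subgroup (E ≃ₐ[k] E))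
    isClosed_univ (prm53 O h1) (prm53 O' h2) (by
      intro b hb
      have h3 : (b : E) ∈ Set.range (algebraMap k E) :=
        (InfiniteGalois.mem_range_algebraMap_iff_fixed (b : E)).2 fun σ => by
          have := congrArg Subtype.val (hb σ (Subgroup.mem_top _))
          rwa [coe_smulB] at this
      obtain ⟨x, hx⟩ := h3
      rw [mem_prm53, mem_prm53, ← hx, key O hO, key O' hO'])
  refine ⟨σ, fun z => ?_⟩
  rw [mem_iff_locW53 O h1, mem_iff_locW53 O' h2]
  constructor
  · rintro ⟨s, hs, hint⟩
    refine ⟨σ⁻¹ • s, fun h => hs ?_, ?_⟩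
    · rw [← hσ, smul_inv_smul] at h
      exact h
    · have h3 : ((σ⁻¹ • s : integralClosure A E) : E) * z = σ⁻¹ ((s : E) * σ z) := by
        rw [coe_smulB, map_mul]
        congr 1
        change z = (σ⁻¹ * σ) z
        rw [inv_mul_cancel]; rfl
      rw [h3]
      exact (σ⁻¹ • (⟨_, hint⟩ : integralClosure A E)).2
  · rintro ⟨s, hs, hint⟩
    refine ⟨σ • s, fun h => hs ((hσ s).1 h), ?_⟩
    have h3 : ((σ • s : integralClosure A E) : E) * σ z = σ ((s : E) * z) := by
      rw [coe_smulB, map_mul]
    rw [h3]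
    exact (σ • (⟨_, hint⟩ : integralClosure A E)).2

end Any

theorem stmtTRV : StmtTRV := by
  intro k E _ _ _ _ _ _ v O O' hO hO'
  have hac : IsAlgClosure k E := ⟨inferInstance, inferInstance⟩
  have hg : IsGalois k E := IsAlgClosure.isGalois k E
  refine conj53 (A := (v.valuation k).valuationSubring) O O' (fun x => ?_) (fun x => ?_)
  · rw [hO x]; rfl
  · rw [hO' x]; rfl

end Pool.Agent.TW
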